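import Mathlib

open scoped TensorProduct

namespace Pool.Agent.Lib.MP_234613_al

universe v u

/-- `F_* R`: the ring `R` viewed as an `R`-module along the Frobenius map, `r • s = r ^ p * s`. -/
noncomputable abbrev FrobPush (R : Type u) [CommRing R] (p : ℕ) [ExpChar R p] : ModuleCat.{u} R :=
  (ModuleCat.restrictScalars (frobenius R p)).obj (ModuleCat.of R R)

/-- `R` is `F`-pure: `M → M ⊗_R F_* R`, `m ↦ m ⊗ 1`, is injective for every `R`-module `M`. -/
def IsFPure (R : Type u) [CommRing R] (p : ℕ) [ExpChar R p] : Prop :=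
  ∀ (M : Type v) [AddCommGroup M] [Module R M],
    Function.Injective fun m : M => (m ⊗ₜ[R] (1 : R) : M ⊗[R] FrobPush R p)

/-- `φ : R → R` is `p⁻¹`-linear: additive with `φ (r ^ p * s) = r * φ s`. -/
def IsPInvLinear {R : Type u} [CommRing R] (p : ℕ) (φ : R →+ R) : Prop :=
  ∀ r s : R, φ (r ^ p * s) = r * φ s

end Pool.Agent.Lib.MP_234613_al
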