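import Mathlib

set_option autoImplicit false

open scoped TensorProduct
open IsLocalRing

namespace Pool.Agent.Lib.MP_234613_al

/-- The formal fibres of the local ring `R` are geometrically regular: for every prime `P` and
every finite extension `K` of the residue field of `P`, the fibre of the completion over `P`,
extended to `K`, is a regular ring. -/
def GeomRegularFormalFibres (R : Type) [CommRing R] [IsLocalRing R] : Prop :=
  ∀ (P : Ideal R) [P.IsPrime] (K : Type) [Field K] [Algebra P.ResidueField K]
    [FiniteDimensional P.ResidueField K],
    IsRegularRing (K ⊗[P.ResidueField] (P.ResidueField ⊗[R] AdicCompletion (maximalIdeal R) R))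

/-- `R` is a G-ring: all its local rings have geometrically regular formal fibres. -/
def IsGRing (R : Type) [CommRing R] : Prop :=
  ∀ (P : Ideal R) [P.IsPrime], GeomRegularFormalFibres (Localization.AtPrime P)

end Pool.Agent.Lib.MP_234613_al
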