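import Pool.Agent.Lib.MP_234613_al.Defs78

set_option autoImplicit false

open scoped TensorProduct
open IsLocalRing
open AdicCompletion hiding map_zero

namespace Pool.Agent.Lib.MP_234613_al

namespace F78

theorem regular_of_artinian (B : Type) [CommRing B] [IsArtinianRing B] [IsReduced B] :
    IsRegularRing B := by
  rw [isRegularRing_iff]
  intro q hq
  have h := IsArtinianRing.isField_of_isReduced_of_isLocalRing (Localization.AtPrime q)
  let _ := h.toField
  infer_instance

variable {R : Type} [CommRing R] [IsLocalRing R] [IsNoetherianRing R]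

/-- The completion. -/
abbrev Hat (R : Type) [CommRing R] [IsLocalRing R] : Type := AdicCompletion (maximalIdeal R) R

theorem mem_J (n : ℕ) (a : Hat R) :
    a ∈ (maximalIdeal R ^ n • ⊤ : Submodule R (Hat R)) ↔ evalₐ (maximalIdeal R) n a = 0 := by
  rw [pow_smul_top_eq_ker_eval (maximalIdeal R).fg_of_isNoetherianRing, LinearMap.mem_ker]
  constructor
  · intro h
    rw [← factor_eval_eq_evalₐ _ a (by simp), h, map_zero]
  · intro h
    rw [← factor_evalₐ_eq_eval _ a (by simp), h, map_zero]

omit [IsNoetherianRing R] in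
theorem eval_alg (n : ℕ) (r : R) :
    evalₐ (maximalIdeal R) n (algebraMap R (Hat R) r) = Ideal.Quotient.mk _ r :=
  (evalₐ (maximalIdeal R) n).commutes r

theorem approx (n : ℕ) (a : Hat R) : ∃ r : R,
    a - algebraMap R (Hat R) r ∈ (maximalIdeal R ^ n • ⊤ : Submodule R (Hat R)) := by
  obtain ⟨r, hr⟩ := Ideal.Quotient.mk_surjective (evalₐ (maximalIdeal R) n a)
  exact ⟨r, by rw [mem_J, map_sub, eval_alg, hr, sub_self]⟩

theorem eval_of_approx {n N : ℕ} (h : n ≤ N) {a : Hat R} {r : R}
    (hr : a - algebraMap R (Hat R) r ∈ (maximalIdeal R ^ N • ⊤ : Submodule R (Hat R))) :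
    evalₐ (maximalIdeal R) n a = Ideal.Quotient.mk _ r := by
  have h1 : a - algebraMap R (Hat R) r ∈ (maximalIdeal R ^ n • ⊤ : Submodule R (Hat R)) :=
    Submodule.smul_mono_left (Ideal.pow_le_pow_right h) hr
  rwa [mem_J, map_sub, eval_alg, sub_eq_zero] at h1

theorem phi_cont {p : ℕ} (φ : R →+ R) (hφ : ∀ r s, φ (r ^ p * s) = r * φ s) (n : ℕ) :
    ∃ N, n ≤ N ∧ ∀ y ∈ maximalIdeal R ^ N, φ y ∈ maximalIdeal R ^ n := by
  let J : Ideal R := Ideal.span {y | ∃ x ∈ maximalIdeal R ^ n, y = x ^ p}
  have h1 : maximalIdeal R ≤ J.radical := fun x hx =>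
    ⟨n * p, by rw [pow_mul]; exact Ideal.subset_span ⟨_, Ideal.pow_mem_pow hx n, rfl⟩⟩
  obtain ⟨N, hN⟩ := Ideal.exists_pow_le_of_le_radical_of_fg h1
    (maximalIdeal R).fg_of_isNoetherianRing
  have h2 : ∀ y ∈ J, ∀ s, φ (y * s) ∈ maximalIdeal R ^ n := by
    intro y hy
    induction hy using Submodule.span_induction with
    | mem y hy =>
      obtain ⟨x, hx, rfl⟩ := hy
      intro s
      rw [hφ]
      exact Ideal.mul_mem_right _ _ hx
    | zero => intro s; simp
    | add y z _ _ hy hz => intro s; rw [add_mul, map_add]; exact Ideal.add_mem _ (hy s) (hz s)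
    | smul c y _ hy => intro s; rw [smul_eq_mul, mul_comm c, mul_assoc]; exact hy _
  refine ⟨max n N, le_max_left _ _, fun y hy => ?_⟩
  simpa using h2 y (hN (Ideal.pow_le_pow_right (le_max_right _ _) hy)) 1

theorem indep_pow [IsDomain R] {p : ℕ} (hp : 0 < p) (φ : R →+ R)
    (hφ : ∀ r s, φ (r ^ p * s) = r * φ s) (h0 : φ ≠ 0) {ι : Type} {a : ι → Hat R}
    (ha : LinearIndependent R a) : LinearIndependent R fun i => a i ^ p := by
  rw [linearIndependent_iff'] at ha ⊢
  intro s g hg i hi
  have key : ∀ w : R, ∑ j ∈ s, φ (w * g j) • a j = 0 := by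
    intro w
    refine ext_evalₐ fun n => ?_
    obtain ⟨N, hnN, hN⟩ := phi_cont φ hφ n
    choose r hr using fun j => approx N (a j)
    have h1 : ∑ j ∈ s, g j * r j ^ p ∈ maximalIdeal R ^ N := by
      rw [← Ideal.Quotient.eq_zero_iff_mem, map_sum]
      have := congrArg (evalₐ (maximalIdeal R) N) hg
      rw [map_sum, map_zero] at this
      rw [← this]
      refine Finset.sum_congr rfl fun j _ => ?_
      rw [map_smul, map_pow, eval_of_approx le_rfl (hr j), map_mul, map_pow]
      rfl
    have h2 := hN _ (Ideal.mul_mem_left _ w h1)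
    rw [Finset.mul_sum, map_sum, ← Ideal.Quotient.eq_zero_iff_mem, map_sum] at h2
    rw [map_sum, map_zero, ← h2]
    refine Finset.sum_congr rfl fun j _ => ?_
    rw [map_smul, eval_of_approx hnN (hr j), show w * (g j * r j ^ p) = r j ^ p * (w * g j) by ring,
      hφ, mul_comm (r j), map_mul (Ideal.Quotient.mk _)]
    rfl
  by_contra hne
  apply h0
  ext t
  obtain ⟨q, rfl⟩ : ∃ q, p = q + 1 := ⟨p - 1, by omega⟩
  have h1 := ha s _ (key (g i ^ q * t)) i hi
  rw [show g i ^ q * t * g i = g i ^ (q + 1) * t by ring, hφ] at h1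
  exact (mul_eq_zero.mp h1).resolve_left hne

theorem reduced_generic {R : Type} [CommRing R] (p : ℕ) [hp : Fact p.Prime] [CharP R p]
    (A : Type) [CommRing A] [Algebra R A]
    (hA : ∀ s : Set A, LinearIndependent R (fun i : s => (i : A)) →
      LinearIndependent R fun i : s => (i : A) ^ p)
    (K : Type) [Field K] [Algebra R K]
    [Module.Flat R K] (hK : Function.Injective (algebraMap R K)) :
    IsReduced (K ⊗[R] A) := by
  have : IsDomain R := Function.Injective.isDomain _ hK
  rcases subsingleton_or_nontrivial (K ⊗[R] A) with h | h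
  · infer_instance
  have : CharP K p := charP_of_injective_algebraMap hK p
  have : CharP (K ⊗[R] A) p := charP_of_injective_algebraMap (algebraMap K _).injective p
  obtain ⟨s, hs, hmax⟩ := exists_maximal_linearIndepOn R (id : A → A)
  have hind : LinearIndependent K fun i : s => ((1 : K) ⊗ₜ[R] ((i : A) ^ p)) :=
    Module.Flat.linearIndependent_one_tmul (hA s hs)
  let v : s → K ⊗[R] A := fun i => (1 : K) ⊗ₜ[R] (i : A)
  have h1 : ∀ a ∈ Submodule.span R (id '' s), (1 : K) ⊗ₜ[R] a ∈ Submodule.span K (Set.range v) := by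
    intro a ha
    induction ha using Submodule.span_induction with
    | mem a ha =>
      obtain ⟨b, hb, rfl⟩ := ha
      exact Submodule.subset_span ⟨⟨b, hb⟩, rfl⟩
    | zero => simp
    | add a b _ _ ha hb => rw [TensorProduct.tmul_add]; exact Submodule.add_mem _ ha hb
    | smul c a _ ha =>
      rw [TensorProduct.tmul_smul, ← algebraMap_smul K]
      exact Submodule.smul_mem _ _ ha
  have h2 : ∀ a : A, (1 : K) ⊗ₜ[R] a ∈ Submodule.span K (Set.range v) := by
    intro a
    by_cases ha : a ∈ s
    · exact h1 a (Submodule.subset_span ⟨a, ha, rfl⟩)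
    · obtain ⟨c, hc, hca⟩ := hmax a ha
      have h3 := h1 _ hca
      rw [TensorProduct.tmul_smul, ← algebraMap_smul K] at h3
      exact (Submodule.smul_mem_iff _ ((map_ne_zero_iff _ hK).mpr hc)).mp h3
  have h3 : ∀ x : K ⊗[R] A, x ∈ Submodule.span K (Set.range v) := by
    intro x
    induction x using TensorProduct.induction_on with
    | zero => simp
    | tmul k a =>
      have : k ⊗ₜ[R] a = k • ((1 : K) ⊗ₜ[R] a) := by rw [TensorProduct.smul_tmul', smul_eq_mul, mul_one]
      rw [this]
      exact Submodule.smul_mem _ _ (h2 a)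
    | add x y hx hy => exact Submodule.add_mem _ hx hy
  rw [isReduced_iff_pow_one_lt p hp.out.one_lt]
  intro x hx
  obtain ⟨c, rfl⟩ := Finsupp.mem_span_range_iff_exists_finsupp.mp (h3 x)
  rw [Finsupp.sum, sum_pow_char] at hx
  have h4 := linearIndependent_iff'.mp hind c.support (fun i => c i ^ p) (by
    rw [← hx]
    refine Finset.sum_congr rfl fun i _ => ?_
    rw [smul_pow, Algebra.TensorProduct.tmul_pow, one_pow])
  refine Finset.sum_eq_zero fun i hi => ?_
  rw [pow_eq_zero_iff hp.out.ne_zero |>.mp (h4 i hi)]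
  exact zero_smul _ _

theorem surj_closed (K : Type) [CommRing K] [Algebra R K]
    (hK : ∀ r ∈ maximalIdeal R, algebraMap R K r = 0) :
    Function.Surjective (algebraMap K (K ⊗[R] Hat R)) := by
  intro x
  induction x using TensorProduct.induction_on with
  | zero => exact ⟨0, map_zero _⟩
  | add x y hx hy =>
    obtain ⟨a, rfl⟩ := hx
    obtain ⟨b, rfl⟩ := hy
    exact ⟨a + b, map_add _ _ _⟩
  | tmul k a =>
    obtain ⟨r, hr⟩ := approx 1 a
    have h1 : k ⊗ₜ[R] (a - algebraMap R (Hat R) r) = 0 := by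
      refine Submodule.smul_induction_on hr (fun c hc b _ => ?_) fun b b' hb hb' => ?_
      · rw [pow_one] at hc
        rw [← TensorProduct.smul_tmul, Algebra.smul_def, hK c hc, zero_mul, TensorProduct.zero_tmul]
      · rw [TensorProduct.tmul_add, hb, hb', add_zero]
    rw [TensorProduct.tmul_sub, sub_eq_zero] at h1
    refine ⟨r • k, ?_⟩
    rw [h1, Algebra.TensorProduct.algebraMap_apply, Algebra.algebraMap_self, RingHom.id_apply,
      TensorProduct.smul_tmul, Algebra.algebraMap_eq_smul_one]

theorem reduced_of_surj (K B : Type) [Field K] [CommRing B] [Algebra K B]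
    (h : Function.Surjective (algebraMap K B)) : IsReduced B := by
  rcases subsingleton_or_nontrivial B with h' | h'
  · infer_instance
  · exact isReduced_of_injective (RingEquiv.ofBijective _ ⟨(algebraMap K B).injective, h⟩).symm
      (RingEquiv.injective _)

/-- A complete local ring: finite generation modulo the maximal ideal suffices. -/
theorem fg_of_complete {A : Type} [CommRing A] (I : Ideal A) [IsAdicComplete I A] (Q : Ideal A)
    {ι : Type} [Fintype ι] (q : ι → A) (hq : ∀ i, q i ∈ Q)
    (h : ∀ y ∈ Q, ∃ c : ι → A, y - ∑ i, c i * q i ∈ I * Q) : Q.FG := by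
  classical
  have hpre : IsPrecomplete I (ι → A) := by
    refine ⟨fun f hf => ?_⟩
    have key : ∀ (n : ℕ) (u : ι → A), u ∈ (I ^ n • ⊤ : Submodule A (ι → A)) ↔
        ∀ i, u i ∈ (I ^ n • ⊤ : Submodule A A) := by
      intro n u
      constructor
      · intro hu i
        refine Submodule.smul_induction_on hu (fun c hc b _ => ?_) fun b b' hb hb' => ?_
        · exact Submodule.smul_mem_smul hc Submodule.mem_top
        · exact Submodule.add_mem _ hb hb'
      · intro hu
        rw [← Finset.univ_sum_single u]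
        refine Submodule.sum_mem _ fun i _ => ?_
        have : (Pi.single i (u i) : ι → A) = u i • Pi.single i 1 := by
          rw [← Pi.single_smul, smul_eq_mul, mul_one]
        rw [this]
        exact Submodule.smul_mem_smul (by simpa using hu i) Submodule.mem_top
    have h1 : ∀ i, ∃ L : A, ∀ n, f n i ≡ L [SMOD (I ^ n • ⊤ : Submodule A A)] := fun i =>
      IsPrecomplete.prec inferInstance fun {m n} hmn =>
        SModEq.sub_mem.mpr ((key m _).mp (SModEq.sub_mem.mp (hf hmn)) i)
    choose L hL using h1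
    exact ⟨L, fun n => SModEq.sub_mem.mpr ((key n _).mpr fun i => SModEq.sub_mem.mp (hL i n))⟩
  have hhaus : IsHausdorff I Q := by
    refine ⟨fun x hx => Subtype.ext (IsHausdorff.haus (I := I) inferInstance (x : A) fun n => ?_)⟩
    have h1 := SModEq.zero.mp (hx n)
    rw [SModEq.zero]
    refine Submodule.smul_induction_on h1 (p := fun z : Q => (z : A) ∈ (I ^ n • ⊤ : Submodule A A))
      (fun c hc b _ => ?_) fun b b' hb hb' => ?_
    · exact Submodule.smul_mem_smul hc Submodule.mem_top
    · exact Submodule.add_mem _ hb hb'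
  let f : (ι → A) →ₗ[A] Q := Fintype.linearCombination A fun i => (⟨q i, hq i⟩ : Q)
  have hf : Function.Surjective f := by
    apply surjective_of_mkQ_comp_surjective (I := I)
    intro y
    obtain ⟨y, rfl⟩ := Submodule.mkQ_surjective _ y
    obtain ⟨c, hc⟩ := h y y.2
    refine ⟨c, ?_⟩
    rw [LinearMap.comp_apply, Submodule.mkQ_apply, Submodule.mkQ_apply, eq_comm,
      Submodule.Quotient.eq, Submodule.mem_smul_top_iff]
    simpa [f, Fintype.linearCombination_apply] using hc
  exact Module.Finite.iff_fg.mp (Module.Finite.of_surjective f hf)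

section dimOne

variable {x : R} (hx : maximalIdeal R ≤ (Ideal.span {x}).radical)
include hx

theorem max_le {Q : Ideal (Hat R)} [hQ : Q.IsPrime] (h : algebraMap R (Hat R) x ∈ Q) :
    Q = maximalIdeal (Hat R) := by
  refine le_antisymm (le_maximalIdeal hQ.ne_top) ?_
  rw [maximalIdeal_eq_map, Ideal.map_le_iff_le_comap]
  exact hx.trans ((Ideal.comap_isPrime _ Q).radical_le_iff.mpr
    ((Ideal.span_singleton_le_iff_mem _).mpr h))

theorem approx_x (a : Hat R) : ∃ (r : R) (b : Hat R), a = algebraMap R (Hat R) r + x • b := by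
  obtain ⟨N, hN⟩ := Ideal.exists_pow_le_of_le_radical_of_fg hx
    (maximalIdeal R).fg_of_isNoetherianRing
  obtain ⟨r, hr⟩ := approx N a
  have h1 := Submodule.smul_mono_left hN hr
  rw [Submodule.ideal_span_singleton_smul, Submodule.mem_smul_pointwise_iff_exists] at h1
  obtain ⟨b, -, hb⟩ := h1
  exact ⟨r, b, by rw [hb, add_sub_cancel]⟩

theorem noeth (hx0 : x ∈ maximalIdeal R) : IsNoetherianRing (Hat R) := by
  apply IsNoetherianRing.of_prime
  intro Q hQ
  by_cases h : algebraMap R (Hat R) x ∈ Q
  · rw [max_le hx h, maximalIdeal_eq_map]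
    exact (maximalIdeal R).fg_of_isNoetherianRing.map _
  let T : Ideal R := (Q ⊔ Ideal.span {algebraMap R (Hat R) x}).comap (algebraMap R (Hat R))
  obtain ⟨n, t, ht⟩ := Submodule.fg_iff_exists_fin_generating_family.mp T.fg_of_isNoetherianRing
  have h1 : ∀ i, ∃ q ∈ Q, ∃ b, algebraMap R (Hat R) (t i) = q + b * algebraMap R (Hat R) x := by
    intro i
    have h2 : t i ∈ T := ht ▸ Submodule.subset_span ⟨i, rfl⟩
    obtain ⟨q, hq, z, hz, hqz⟩ := Submodule.mem_sup.mp (Ideal.mem_comap.mp h2)
    obtain ⟨b, rfl⟩ := Ideal.mem_span_singleton'.mp hz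
    exact ⟨q, hq, b, hqz.symm⟩
  choose q hq b hb using h1
  refine fg_of_complete (maximalIdeal (Hat R)) Q q hq fun y hy => ?_
  obtain ⟨r, a, hra⟩ := approx_x hx y
  rw [Algebra.smul_def] at hra
  have h2 : r ∈ T := by
    have : algebraMap R (Hat R) r = y - algebraMap R (Hat R) x * a := by rw [hra]; ring
    rw [Ideal.mem_comap, this]
    exact Ideal.sub_mem _ (Ideal.mem_sup_left hy)
      (Ideal.mem_sup_right (Ideal.mul_mem_right _ _ (Ideal.mem_span_singleton_self _)))
  rw [← ht] at h2
  obtain ⟨c, hc⟩ := (Submodule.mem_span_range_iff_exists_fun R).mp h2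
  refine ⟨fun i => algebraMap R (Hat R) (c i), ?_⟩
  have h3 : y - ∑ i, algebraMap R (Hat R) (c i) * q i =
      algebraMap R (Hat R) x * (a + ∑ i, algebraMap R (Hat R) (c i) * b i) := by
    rw [hra, ← hc, map_sum, mul_add, Finset.mul_sum, add_sub_right_comm, ← Finset.sum_sub_distrib,
      add_comm]
    congr 1
    refine Finset.sum_congr rfl fun i _ => ?_
    rw [smul_eq_mul, map_mul, hb]
    ring
  have h4 : y - ∑ i, algebraMap R (Hat R) (c i) * q i ∈ Q :=
    Q.sub_mem hy (Q.sum_mem fun i _ => Q.mul_mem_left _ (hq i))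
  rw [h3] at h4 ⊢
  refine Ideal.mul_mem_mul ?_ ((hQ.mem_or_mem h4).resolve_left h)
  rw [maximalIdeal_eq_map]
  exact Ideal.mem_map_of_mem _ hx0

theorem prime_eq (hx0 : x ∈ maximalIdeal R) {Q Q' : Ideal (Hat R)} [Q.IsPrime] [hQ' : Q'.IsPrime]
    (hle : Q ≤ Q') (h : algebraMap R (Hat R) x ∉ Q') : Q = Q' := by
  have := noeth hx hx0
  have hm : algebraMap R (Hat R) x ∈ maximalIdeal (Hat R) := by
    rw [maximalIdeal_eq_map]
    exact Ideal.mem_map_of_mem _ hx0
  have h1 : (maximalIdeal (Hat R)).height ≤ 1 := by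
    refine Ideal.height_le_one_of_isPrincipal_of_mem_minimalPrimes
      (Ideal.span {algebraMap R (Hat R) x}) _ ⟨⟨inferInstance, ?_⟩, fun P hP _ => ?_⟩
    · exact (Ideal.span_singleton_le_iff_mem _).mpr hm
    · have := hP.1
      exact (max_le hx ((Ideal.span_singleton_le_iff_mem _).mp hP.2)).ge
  by_contra hne
  have h2 : Q < Q' := lt_of_le_of_ne hle hne
  have h3 : Q' < maximalIdeal (Hat R) :=
    lt_of_le_of_ne (le_maximalIdeal hQ'.ne_top) fun h4 => h (h4 ▸ hm)
  have h4 := Ideal.height_add_one_le_of_lt_of_isPrime h2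
  have h5 := Ideal.height_add_one_le_of_lt_of_isPrime h3
  have h6 : (1 : ℕ∞) + 1 ≤ 1 :=
    ((add_le_add_left (le_add_self.trans h4) 1).trans h5).trans h1
  exact absurd h6 (by decide)

theorem artinian_generic [IsDomain R] (hx0 : x ∈ maximalIdeal R) (hx1 : x ≠ 0) (F : Type) [Field F]
    [Algebra R F] [IsFractionRing R F] : IsArtinianRing (F ⊗[R] Hat R) := by
  have := noeth hx hx0
  have : Algebra.EssFiniteType R F := Algebra.EssFiniteType.of_isLocalization F (nonZeroDivisors R)
  have : IsNoetherianRing (Hat R ⊗[R] F) := Algebra.EssFiniteType.isNoetherianRing (Hat R) _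
  have : IsNoetherianRing (F ⊗[R] Hat R) :=
    isNoetherianRing_of_ringEquiv _ (Algebra.TensorProduct.comm R (Hat R) F).toRingEquiv
  have hunit : ∀ r : R, r ≠ 0 → IsUnit (algebraMap R (F ⊗[R] Hat R) r) := fun r hr => by
    rw [IsScalarTower.algebraMap_apply R F]
    exact (((map_ne_zero_iff _ (IsFractionRing.injective R F)).mpr hr).isUnit).map _
  let ι : Hat R →ₐ[R] F ⊗[R] Hat R := Algebra.TensorProduct.includeRight
  have hden : ∀ b : F ⊗[R] Hat R, ∃ r : R, r ≠ 0 ∧ ∃ a, algebraMap R _ r * b = ι a := by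
    intro b
    induction b using TensorProduct.induction_on with
    | zero => exact ⟨1, one_ne_zero, 0, by simp⟩
    | tmul k a =>
      obtain ⟨u, v, hv, rfl⟩ := IsFractionRing.div_surjective (A := R) k
      have hv' := nonZeroDivisors.ne_zero hv
      refine ⟨v, hv', u • a, ?_⟩
      rw [← Algebra.smul_def, TensorProduct.smul_tmul', Algebra.smul_def,
        mul_div_cancel₀ _ ((map_ne_zero_iff _ (IsFractionRing.injective R F)).mpr hv'),
        Algebra.algebraMap_eq_smul_one, TensorProduct.smul_tmul]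
      rfl
    | add b b' hb hb' =>
      obtain ⟨r, hr, a, ha⟩ := hb
      obtain ⟨r', hr', a', ha'⟩ := hb'
      refine ⟨r * r', mul_ne_zero hr hr', algebraMap R _ r' * a + algebraMap R _ r * a', ?_⟩
      rw [map_add, map_mul ι, map_mul ι, ι.commutes, ι.commutes, ← ha, ← ha', map_mul]
      ring
  have : Ring.KrullDimLE 0 (F ⊗[R] Hat R) := by
    rw [Ring.krullDimLE_zero_iff]
    intro q hq
    obtain ⟨q', hq', hle⟩ := Ideal.exists_le_maximal q hq.ne_top
    have h1 : q.comap ι = q'.comap ι := by
      refine prime_eq hx hx0 (Ideal.comap_mono hle) fun h => ?_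
      rw [Ideal.mem_comap, ι.commutes] at h
      exact hq'.ne_top (Ideal.eq_top_of_isUnit_mem _ h (hunit x hx1))
    have h2 : q = q' := by
      refine le_antisymm hle fun b hb => ?_
      obtain ⟨r, hr, a, ha⟩ := hden b
      have h3 : a ∈ q'.comap ι := by
        rw [Ideal.mem_comap, ← ha]
        exact q'.mul_mem_left _ hb
      rw [← h1, Ideal.mem_comap, ← ha] at h3
      exact (Ideal.unit_mul_mem_iff_mem _ (hunit r hr)).mp h3
    rwa [h2]
  exact IsNoetherianRing.isArtinianRing_of_krullDimLE_zero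

end dimOne

theorem artinian_ext (F K B : Type) [Field F] [Field K] [Algebra F K] [FiniteDimensional F K]
    [CommRing B] [Algebra F B] [IsArtinianRing B] : IsArtinianRing (K ⊗[F] B) :=
  haveI : IsArtinianRing (B ⊗[F] K) := IsArtinianRing.of_finite B _
  (Algebra.TensorProduct.comm F B K).surjective.isArtinianRing

theorem geomRegular_aux [IsDomain R] (p : ℕ) [hp : Fact p.Prime] [CharP R p]
    (hrad : ∀ x : R, x ≠ 0 → maximalIdeal R ≤ (Ideal.span {x}).radical)
    (hφ : maximalIdeal R ≠ ⊥ → ∃ φ : R →+ R, (∀ r s, φ (r ^ p * s) = r * φ s) ∧ φ ≠ 0) :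
    GeomRegularFormalFibres R := by
  intro P hP K _ _ _
  let _ : Algebra R K := ((algebraMap P.ResidueField K).comp (algebraMap R _)).toAlgebra
  have : IsScalarTower R P.ResidueField K := IsScalarTower.of_algebraMap_eq' rfl
  let e := Algebra.TensorProduct.cancelBaseChange R P.ResidueField K K (Hat R)
  have key : IsArtinianRing (P.ResidueField ⊗[R] Hat R) ∧ IsReduced (K ⊗[R] Hat R) := by
    by_cases h1 : maximalIdeal R ≤ P
    · have h2 : ∀ r ∈ maximalIdeal R, algebraMap R P.ResidueField r = 0 := fun r hr =>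
        Ideal.algebraMap_residueField_eq_zero.mpr (h1 hr)
      refine ⟨(surj_closed _ h2).isArtinianRing, reduced_of_surj K _ (surj_closed K fun r hr => ?_)⟩
      rw [IsScalarTower.algebraMap_apply R P.ResidueField K, h2 r hr, map_zero]
    · have hb : P = ⊥ := by
        by_contra hb
        obtain ⟨x, hx0, hx1⟩ := Submodule.exists_mem_ne_zero_of_ne_bot hb
        exact h1 ((hrad x hx1).trans
          (hP.radical_le_iff.mpr ((Ideal.span_singleton_le_iff_mem P).mpr hx0)))
      subst hb
      have hm : maximalIdeal R ≠ ⊥ := fun h => h1 h.le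
      obtain ⟨φ, hφ, h0⟩ := hφ hm
      obtain ⟨x, hx0, hx1⟩ := Submodule.exists_mem_ne_zero_of_ne_bot hm
      refine ⟨artinian_generic (hrad x hx1) hx0 hx1 _, ?_⟩
      have : Module.Flat R (⊥ : Ideal R).ResidueField :=
        IsLocalization.flat _ (nonZeroDivisors R)
      have : Module.Flat R K := Module.Flat.trans R (⊥ : Ideal R).ResidueField K
      exact reduced_generic p (Hat R) (fun s hs => indep_pow hp.out.pos φ hφ h0 hs) K
        ((algebraMap (⊥ : Ideal R).ResidueField K).injective.comp (IsFractionRing.injective R _))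
  obtain ⟨h1, h2⟩ := key
  have := artinian_ext P.ResidueField K (P.ResidueField ⊗[R] Hat R)
  have : IsReduced (K ⊗[P.ResidueField] (P.ResidueField ⊗[R] Hat R)) :=
    isReduced_of_injective e e.injective
  exact regular_of_artinian _

/-- A one-dimensional Noetherian local domain with a nonzero additive map `φ` such that
`φ (r ^ p * s) = r * φ s` is a G-ring. -/
theorem isGRing [IsDomain R] (p : ℕ) [hp : Fact p.Prime] [CharP R p]
    (hd : ringKrullDim R = 1) (φ : R →+ R) (hφ : ∀ r s, φ (r ^ p * s) = r * φ s) (h0 : φ ≠ 0) :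
    IsGRing R := by
  obtain ⟨hnf, hrad⟩ := ringKrullDim_eq_one_iff_of_isLocalRing_isDomain.mp hd
  intro P hP
  have hinj : Function.Injective (algebraMap R (Localization.AtPrime P)) :=
    IsLocalization.injective _ P.primeCompl_le_nonZeroDivisors
  have : CharP (Localization.AtPrime P) p := charP_of_injective_algebraMap hinj p
  by_cases hb : P = ⊥
  · have hm : maximalIdeal (Localization.AtPrime P) = ⊥ := by
      rw [← Localization.AtPrime.map_eq_maximalIdeal]
      simp [hb]
    exact geomRegular_aux p (fun x _ => by rw [hm]; exact bot_le) fun h => absurd hm h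
  · obtain ⟨x, hx0, hx1⟩ := Submodule.exists_mem_ne_zero_of_ne_bot hb
    have h1 : P = maximalIdeal R := le_antisymm (le_maximalIdeal hP.ne_top) ((hrad x hx1).trans
      (hP.radical_le_iff.mpr ((Ideal.span_singleton_le_iff_mem P).mpr hx0)))
    subst h1
    let e : R ≃+* Localization.AtPrime (maximalIdeal R) :=
      (IsLocalization.atUnits R (maximalIdeal R).primeCompl
        (fun x ↦ by simpa using! fun a ↦ a)).toRingEquiv
    have hd' : ringKrullDim (Localization.AtPrime (maximalIdeal R)) = 1 := by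
      rw [← ringKrullDim_eq_of_ringEquiv e, hd]
    refine geomRegular_aux p (ringKrullDim_eq_one_iff_of_isLocalRing_isDomain.mp hd').2 fun _ =>
      ⟨(e.toAddEquiv.toAddMonoidHom.comp φ).comp e.symm.toAddEquiv.toAddMonoidHom,
        fun r s => ?_, fun h => h0 ?_⟩
    · change e (φ (e.symm (r ^ p * s))) = r * e (φ (e.symm s))
      rw [map_mul, map_pow, hφ, map_mul, e.apply_symm_apply]
    · ext t
      have h2 : e (φ (e.symm (e t))) = 0 := DFunLike.congr_fun h (e t)
      rwa [e.symm_apply_apply, map_eq_zero_iff _ e.injective] at h2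

end F78

end Pool.Agent.Lib.MP_234613_al
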