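import Pool.Agent.Lib.MP_234613_al.Frob

open MvPolynomial

namespace Pool.Agent.Lib.MP_234613_al

section frac

variable {P : Type} [CommRing P] [IsDomain P]

/-- The subfield of fractions of a subring. -/
noncomputable def fracOf (A : Subring P) : Subfield (FractionRing P) :=
  Subfield.closure (A.map (algebraMap P (FractionRing P)))

theorem mem_fracOf {A : Subring P} {x : FractionRing P} :
    x ∈ fracOf A ↔ ∃ f ∈ A, ∃ g ∈ A, g ≠ 0 ∧
      x = algebraMap P (FractionRing P) f / algebraMap P (FractionRing P) g := by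
  rw [fracOf, Subfield.mem_closure_iff, Subring.closure_eq]
  constructor
  · rintro ⟨_, ⟨f, hf, rfl⟩, _, ⟨g, hg, rfl⟩, rfl⟩
    by_cases h : g = 0
    · exact ⟨0, A.zero_mem, 1, A.one_mem, one_ne_zero, by simp [h]⟩
    · exact ⟨f, hf, g, hg, h, rfl⟩
  · rintro ⟨f, hf, g, hg, -, rfl⟩
    exact ⟨_, ⟨f, hf, rfl⟩, _, ⟨g, hg, rfl⟩, rfl⟩

theorem fracOf_mono {A B : Subring P} (h : A ≤ B) : fracOf A ≤ fracOf B := by
  intro x hx
  obtain ⟨f, hf, g, hg, h0, rfl⟩ := mem_fracOf.mp hx
  exact mem_fracOf.mpr ⟨f, h hf, g, h hg, h0, rfl⟩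

theorem exists_extend (p : ℕ) (hp : 0 < p) (φ : P →+ P) (hφ : ∀ r s, φ (r ^ p * s) = r * φ s) :
    ∃ Φ : FractionRing P →+ FractionRing P, (∀ r s, Φ (r ^ p * s) = r * Φ s) ∧
      ∀ f g, g ≠ 0 → Φ (algebraMap P (FractionRing P) f / algebraMap P (FractionRing P) g) =
        algebraMap P (FractionRing P) (φ (f * g ^ (p - 1))) / algebraMap P (FractionRing P) g := by
  obtain ⟨q, rfl⟩ : ∃ q, p = q + 1 := ⟨p - 1, (Nat.sub_add_cancel hp).symm⟩
  set ι := algebraMap P (FractionRing P) with hι
  have hinj : Function.Injective ι := IsFractionRing.injective P (FractionRing P)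
  have hne : ∀ {g : P}, g ≠ 0 → ι g ≠ 0 := fun hg h => hg (hinj (h.trans (map_zero ι).symm))
  have hsurj : ∀ x : FractionRing P, ∃ f g : P, g ≠ 0 ∧ x = ι f / ι g ^ (q + 1) := by
    intro x
    obtain ⟨f, g, hg, rfl⟩ := IsFractionRing.div_surjective (A := P) x
    have hg' : g ≠ 0 := nonZeroDivisors.ne_zero hg
    refine ⟨f * g ^ q, g, hg', ?_⟩
    have := hne hg'
    simp only [map_mul, map_pow, ← hι]
    field_simp
    ring
  choose nu de hde hx using hsurj
  let Φ0 : FractionRing P → FractionRing P := fun x => ι (φ (nu x)) / ι (de x)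
  have key : ∀ f g : P, g ≠ 0 → Φ0 (ι f / ι g ^ (q + 1)) = ι (φ f) / ι g := by
    intro f g hg
    set x := ι f / ι g ^ (q + 1) with hxdef
    have h1 : ι f / ι g ^ (q + 1) = ι (nu x) / ι (de x) ^ (q + 1) := hx x
    rw [div_eq_div_iff (pow_ne_zero _ (hne hg)) (pow_ne_zero _ (hne (hde x)))] at h1
    have h2 : de x ^ (q + 1) * f = g ^ (q + 1) * nu x := by
      apply hinj
      simp only [map_mul, map_pow]
      linear_combination h1
    have h3 := congrArg (fun z => ι (φ z)) h2
    simp only [hφ, map_mul] at h3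
    change ι (φ (nu x)) / ι (de x) = _
    rw [div_eq_div_iff (hne (hde x)) (hne hg)]
    linear_combination -h3
  have hadd : ∀ x y, Φ0 (x + y) = Φ0 x + Φ0 y := by
    intro x y
    have hxy : x + y = ι (de y ^ (q + 1) * nu x + de x ^ (q + 1) * nu y) /
        ι (de x * de y) ^ (q + 1) := by
      have h1 := hne (hde x)
      have h2 := hne (hde y)
      conv_lhs => rw [hx x, hx y]
      simp only [map_add, map_mul, map_pow]
      field_simp
      ring
    rw [hxy, key _ _ (mul_ne_zero (hde x) (hde y))]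
    have h1 := hne (hde x)
    have h2 := hne (hde y)
    simp only [Φ0, map_add, hφ, map_mul]
    field_simp
  refine ⟨AddMonoidHom.mk' Φ0 hadd, ?_, ?_⟩
  · intro r s
    obtain ⟨f, g, hg, rfl⟩ := IsFractionRing.div_surjective (A := P) r
    have hg' : g ≠ 0 := nonZeroDivisors.ne_zero hg
    have h1 := hne hg'
    have h2 := hne (hde s)
    have hrs : (ι f / ι g) ^ (q + 1) * s = ι (f ^ (q + 1) * nu s) / ι (g * de s) ^ (q + 1) := by
      conv_lhs => rw [hx s]
      rw [div_pow, div_mul_div_comm, map_mul, map_mul, map_pow, mul_pow]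
    change Φ0 ((ι f / ι g) ^ (q + 1) * s) = ι f / ι g * Φ0 s
    rw [hrs, key _ _ (mul_ne_zero hg' (hde s))]
    simp only [Φ0, hφ, map_mul]
    field_simp
  · intro f g hg
    have h1 := hne hg
    have : ι f / ι g = ι (f * g ^ q) / ι g ^ (q + 1) := by
      simp only [map_mul, map_pow]
      field_simp
      ring
    change Φ0 (ι f / ι g) = _
    rw [this, key _ _ hg, Nat.add_sub_cancel]

end frac

section poly

variable (ι : Type) (p : ℕ) [hp : Fact p.Prime]

theorem smul_inj : Function.Injective fun m : ι →₀ ℕ => p • m := by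
  intro m m' h
  ext i
  have := DFunLike.congr_fun h i
  simp only [Finsupp.smul_apply, smul_eq_mul] at this
  exact Nat.eq_of_mul_eq_mul_left hp.out.pos this

/-- The standard splitting of Frobenius on a polynomial ring over `ZMod p`. -/
noncomputable def contr : MvPolynomial ι (ZMod p) →+ MvPolynomial ι (ZMod p) where
  toFun f := AddMonoidAlgebra.ofCoeff
    (Finsupp.comapDomain (fun m : ι →₀ ℕ => p • m) (AddMonoidAlgebra.coeff f) (smul_inj ι p).injOn)
  map_zero' := MvPolynomial.ext _ _ fun m => rfl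
  map_add' f g := MvPolynomial.ext _ _ fun m => by
    rw [coeff_add]
    exact coeff_add (p • m) f g

theorem coeff_contr (f : MvPolynomial ι (ZMod p)) (m : ι →₀ ℕ) :
    coeff m (contr ι p f) = coeff (p • m) f := rfl

theorem contr_lin (r s : MvPolynomial ι (ZMod p)) : contr ι p (r ^ p * s) = r * contr ι p s := by
  classical
  induction r using MvPolynomial.induction_on' with
  | monomial u a =>
    ext m
    rw [coeff_contr, ← expand_zmod, expand_monomial, coeff_monomial_mul', coeff_monomial_mul',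
      coeff_contr]
    have h : p • u ≤ p • m ↔ u ≤ m := by
      simp only [Finsupp.le_def, Finsupp.smul_apply, smul_eq_mul]
      exact forall_congr' fun i => Nat.mul_le_mul_left_iff hp.out.pos
    have h2 : p • m - p • u = p • (m - u) := by
      ext i
      simp [Nat.mul_sub]
    simp only [h, h2]
  | add f g hf hg => rw [add_pow_char, add_mul, map_add, hf, hg, add_mul]

theorem contr_one : contr ι p 1 = 1 := by
  classical
  ext m
  rw [coeff_contr, coeff_one, coeff_one]
  have : 0 = p • m ↔ 0 = m := by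
    rw [← (smul_inj ι p).eq_iff (a := 0) (b := m)]; simp
  simp only [this]

theorem contr_mem {s : Set ι} {f : MvPolynomial ι (ZMod p)} (hf : f ∈ supported (ZMod p) s) :
    contr ι p f ∈ supported (ZMod p) s := by
  classical
  rw [mem_supported] at hf ⊢
  intro i hi
  apply hf
  rw [Finset.mem_coe, mem_vars_iff_mem_support] at hi ⊢
  obtain ⟨d, hd, hid⟩ := hi
  refine ⟨p • d, ?_, ?_⟩
  · rw [mem_support_iff] at hd ⊢
    exact hd
  · rw [Finsupp.mem_support_iff] at hid ⊢
    simpa [hp.out.ne_zero] using hid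

end poly

variable (p : ℕ) [hp : Fact p.Prime]

abbrev Pol := MvPolynomial (ℕ ⊕ ℕ) (ZMod p)

/-- `a_i ↦ a_i - c_i ^ p`, `c_i ↦ - c_i`. -/
noncomputable def sig : Pol p →ₐ[ZMod p] Pol p :=
  aeval (Sum.elim (fun i => X (Sum.inl i) - X (Sum.inr i) ^ p) fun i => -X (Sum.inr i))

theorem sig_inl (i : ℕ) : sig p (X (Sum.inl i)) = X (Sum.inl i) - X (Sum.inr i) ^ p := by
  simp [sig]

theorem sig_inr (i : ℕ) : sig p (X (Sum.inr i)) = -X (Sum.inr i) := by simp [sig]

theorem sig_sig (f : Pol p) : sig p (sig p f) = f := by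
  have : (sig p).comp (sig p) = AlgHom.id _ _ := by
    apply MvPolynomial.algHom_ext
    rintro (i | i)
    · rw [AlgHom.comp_apply, sig_inl, map_sub, map_pow, sig_inl, sig_inr, neg_pow, neg_one_pow_char]
      simp
    · rw [AlgHom.comp_apply, sig_inr, map_neg, sig_inr]
      simp
  exact DFunLike.congr_fun this f

def idx (n : ℕ) : Set (ℕ ⊕ ℕ) := {j | ∀ i, j = Sum.inr i → i < n}

/-- The kernel of `∂ / ∂ c_n`. -/
noncomputable def kerD (n : ℕ) : Subalgebra (ZMod p) (Pol p) where
  carrier := {f | pderiv (Sum.inr n) f = 0}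
  mul_mem' := by
    intro f g hf hg
    simp only [Set.mem_ofPred_eq] at hf hg ⊢
    rw [pderiv_mul, hf, hg]; simp
  add_mem' := by
    intro f g hf hg
    simp only [Set.mem_ofPred_eq] at hf hg ⊢
    rw [map_add, hf, hg, add_zero]
  algebraMap_mem' r := by simp

theorem X_mem_kerD {n : ℕ} {j : ℕ ⊕ ℕ} (h : j ∈ idx n) : (X j : Pol p) ∈ kerD p n :=
  pderiv_X_of_ne fun e => lt_irrefl n (h n e)

theorem supp_le_kerD (n : ℕ) : supported (ZMod p) (idx n) ≤ kerD p n := by
  rw [supported_eq_adjoin_X, Algebra.adjoin_le_iff]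
  rintro _ ⟨j, hj, rfl⟩
  exact X_mem_kerD p hj

theorem sig_mem_kerD {n : ℕ} {f : Pol p} (hf : f ∈ supported (ZMod p) (idx n)) :
    sig p f ∈ kerD p n := by
  have : supported (ZMod p) (idx n) ≤ (kerD p n).comap (sig p) := by
    rw [supported_eq_adjoin_X, Algebra.adjoin_le_iff]
    rintro _ ⟨j, hj, rfl⟩
    change sig p (X j) ∈ kerD p n
    rcases j with i | i
    · rw [sig_inl]
      refine (kerD p n).sub_mem (X_mem_kerD p (fun _ h => by cases h)) ?_
      change pderiv (Sum.inr n) (X (Sum.inr i) ^ p : Pol p) = 0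
      rw [pderiv_pow, CharP.cast_eq_zero, zero_mul, zero_mul]
    · rw [sig_inr]
      exact (kerD p n).neg_mem (X_mem_kerD p hj)
  exact this hf

instance : CharP (FractionRing (Pol p)) p :=
  charP_of_injective_algebraMap (IsFractionRing.injective (Pol p) (FractionRing (Pol p))) p

theorem nonempty_data : Nonempty (Data (FractionRing (Pol p)) p) := by
  classical
  set ι := algebraMap (Pol p) (FractionRing (Pol p)) with hι
  have hinj : Function.Injective ι := IsFractionRing.injective _ _
  have hne : ∀ {g : Pol p}, g ≠ 0 → ι g ≠ 0 := fun hg h => hg (hinj (h.trans (map_zero ι).symm))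
  have hsinj : Function.Injective (sig p) := Function.LeftInverse.injective (sig_sig p)
  let σ : FractionRing (Pol p) →+* FractionRing (Pol p) :=
    IsFractionRing.lift (g := ι.comp (sig p).toRingHom) (hinj.comp hsinj)
  have hσ : ∀ f, σ (ι f) = ι (sig p f) := fun f => IsFractionRing.lift_algebraMap _ f
  obtain ⟨Φ, hΦ, hΦ'⟩ := exists_extend p hp.out.pos (contr _ p) (contr_lin (ℕ ⊕ ℕ) p)
  have hmono : Monotone idx := fun n m h j hj i e => (hj i e).trans_le h
  refine ⟨{
    F := fun n => fracOf (supported (ZMod p) (idx n)).toSubring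
    mono := fun n m h => fracOf_mono (supported_mono (hmono h))
    exh := ?_
    σ := σ
    σσ := ?_
    α := ι (X (Sum.inl 0))
    hα := ?_
    Φ := Φ
    Φ_lin := hΦ
    Φ_one := ?_
    Φ_mem := ?_
    a := fun n => ι (X (Sum.inl n))
    c := fun n => ι (X (Sum.inr n))
    a_mem := ?_
    ac := ?_
    hc := ?_ }⟩
  · intro x
    obtain ⟨f, g, hg, rfl⟩ := IsFractionRing.div_surjective (A := Pol p) x
    have hb : ∀ f : Pol p, ∃ n, f ∈ supported (ZMod p) (idx n) := by
      intro f
      refine ⟨f.vars.sup (Sum.elim (fun _ => 0) id) + 1, mem_supported.mpr fun j hj i e => ?_⟩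
      subst e
      exact Nat.lt_succ_of_le (Finset.le_sup (f := Sum.elim (fun _ => 0) id) hj)
    obtain ⟨n, hn⟩ := hb f
    obtain ⟨m, hm⟩ := hb g
    exact ⟨max n m, mem_fracOf.mpr ⟨f, supported_mono (hmono (le_max_left _ _)) hn, g,
      supported_mono (hmono (le_max_right _ _)) hm, nonZeroDivisors.ne_zero hg, rfl⟩⟩
  · intro x
    obtain ⟨f, g, -, rfl⟩ := IsFractionRing.div_surjective (A := Pol p) x
    rw [map_div₀, map_div₀, ← hι, hσ, hσ, hσ, hσ, sig_sig, sig_sig]
  · rw [hσ, sig_inl]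
    intro h
    have h1 := hinj h
    rw [sub_eq_self] at h1
    exact pow_ne_zero _ (X_ne_zero _) h1
  · have := hΦ' 1 1 one_ne_zero
    simpa [contr_one] using this
  · intro n x hx
    obtain ⟨f, hf, g, hg, h0, rfl⟩ := mem_fracOf.mp hx
    rw [hΦ' f g h0]
    exact mem_fracOf.mpr ⟨_, contr_mem _ p (Subalgebra.mul_mem _ hf (Subalgebra.pow_mem _ hg _)),
      g, hg, h0, rfl⟩
  · intro n
    exact mem_fracOf.mpr ⟨X (Sum.inl n), X_mem_supported.mpr (fun _ h => by cases h), 1,
      Subring.one_mem _, one_ne_zero, by simp [hι]⟩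
  · intro n
    rw [hσ, sig_inl, map_sub, map_pow]; ring
  · intro n x hx h
    obtain ⟨f, hf, g, hg, h0, rfl⟩ := mem_fracOf.mp hx
    have h0' : sig p g ≠ 0 := fun e => h0 (hsinj (e.trans (map_zero _).symm))
    rw [map_div₀, ← hι, hσ, hσ, div_sub_div _ _ (hne h0) (hne h0'),
      div_eq_iff (mul_ne_zero (hne h0) (hne h0'))] at h
    have h1 : f * sig p g - g * sig p f = X (Sum.inr n) * (g * sig p g) := by
      apply hinj
      simpa only [map_sub, map_mul] using h
    have h2 : f * sig p g - g * sig p f ∈ kerD p n :=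
      (kerD p n).sub_mem ((kerD p n).mul_mem (supp_le_kerD p n hf) (sig_mem_kerD p hg))
        ((kerD p n).mul_mem (supp_le_kerD p n hg) (sig_mem_kerD p hf))
    have h3 : pderiv (Sum.inr n) (g * sig p g) = 0 :=
      (kerD p n).mul_mem (supp_le_kerD p n hg) (sig_mem_kerD p hg)
    rw [h1] at h2
    have h4 : pderiv (Sum.inr n) (X (Sum.inr n) * (g * sig p g)) = 0 := h2
    rw [pderiv_mul, h3, pderiv_X_self, one_mul, mul_zero, add_zero] at h4
    exact mul_ne_zero h0 h0' h4

end Pool.Agent.Lib.MP_234613_al
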