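import Pool.Agent.Lib.MP_234613_al.Ring

open PowerSeries
open scoped TensorProduct

namespace Pool.Agent.Lib.MP_234613_al

section cw

variable {L : Type} [Field L] (p : ℕ)

/-- Coefficientwise extension of an additive map to power series. -/
noncomputable def cw (Ψ : L →+ L) : L⟦X⟧ →+ L⟦X⟧ where
  toFun f := PowerSeries.mk fun l => Ψ (coeff (p * l) f)
  map_zero' := by ext l; simp
  map_add' f g := by ext l; simp

theorem coeff_cw (Ψ : L →+ L) (f : L⟦X⟧) (l : ℕ) : coeff l (cw p Ψ f) = Ψ (coeff (p * l) f) := by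
  simp [cw]

theorem cw_X_pow_mul (Ψ : L →+ L) (hp : 0 < p) (f : L⟦X⟧) : cw p Ψ (X ^ p * f) = X * cw p Ψ f := by
  ext l
  rw [coeff_cw, coeff_X_pow_mul']
  cases l with
  | zero => rw [if_neg (by omega)]; simp
  | succ l =>
    rw [if_pos (Nat.le_mul_of_pos_right _ (Nat.succ_pos _)), coeff_succ_X_mul, coeff_cw,
      Nat.mul_succ, Nat.add_sub_cancel]

theorem cw_lin [hp : Fact p.Prime] [CharP L p] (Ψ : L →+ L)
    (hΨ : ∀ r s, Ψ (r ^ p * s) = r * Ψ s) (r s : L⟦X⟧) :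
    cw p Ψ (r ^ p * s) = r * cw p Ψ s := by
  have : CharP L⟦X⟧ p := charP_of_injective_ringHom (f := (C : L →+* L⟦X⟧)) C_injective p
  have hC : ∀ (x : L) (s : L⟦X⟧), cw p Ψ (C x ^ p * s) = C x * cw p Ψ s := by
    intro x s
    ext l
    rw [coeff_cw, ← map_pow, coeff_C_mul, coeff_C_mul, hΨ, coeff_cw]
  ext l
  induction l generalizing r with
  | zero =>
    rw [eq_X_mul_shift_add_const r, add_pow_char, add_mul, map_add, hC, mul_pow, mul_assoc,
      cw_X_pow_mul p Ψ hp.out.pos, add_mul, map_add, map_add, mul_assoc, coeff_zero_X_mul,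
      coeff_zero_X_mul]
  | succ l ih =>
    rw [eq_X_mul_shift_add_const r, add_pow_char, add_mul, map_add, hC, mul_pow, mul_assoc,
      cw_X_pow_mul p Ψ hp.out.pos, add_mul, map_add, map_add, mul_assoc, coeff_succ_X_mul,
      coeff_succ_X_mul, ih]

theorem cw_one (Ψ : L →+ L) (hp : 0 < p) (h1 : Ψ 1 = 1) : cw p Ψ 1 = 1 := by
  ext l
  rw [coeff_cw, coeff_one, coeff_one]
  by_cases h : l = 0
  · simp [h, h1]
  · rw [if_neg h, if_neg (Nat.mul_ne_zero hp.ne' h), map_zero]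

/-- Density: a nonzero `p⁻¹`-linear map generates a weak-star dense family. -/
theorem dense (Φ Ψ : L →+ L)
    (hΦ : ∀ r s, Φ (r ^ p * s) = r * Φ s) (h1 : Φ 1 = 1)
    (hΨ : ∀ r s, Ψ (r ^ p * s) = r * Ψ s) {ι : Type} [Fintype ι] (y : ι → L) :
    ∃ w : L, ∀ i, Φ (w * y i) = Ψ (y i) := by
  classical
  let T : Submodule L (ι → L) :=
    { carrier := {v | ∃ w : L, ∀ i, Φ (w * y i) = v i}
      add_mem' := by
        rintro v v' ⟨w, hw⟩ ⟨w', hw'⟩
        exact ⟨w + w', fun i => by rw [add_mul, map_add, hw, hw']; rfl⟩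
      zero_mem' := ⟨0, fun i => by simp⟩
      smul_mem' := by
        rintro c v ⟨w, hw⟩
        exact ⟨c ^ p * w, fun i => by rw [mul_assoc, hΦ, hw]; rfl⟩ }
  by_contra hcon
  have hn : (fun i => Ψ (y i)) ∉ T := hcon
  obtain ⟨f, hf, hT⟩ := Submodule.exists_le_ker_of_notMem hn
  let l : ι → L := fun i => f (Pi.single i 1)
  have hfl : ∀ v : ι → L, f v = ∑ i, l i * v i := by
    intro v
    rw [LinearMap.pi_apply_eq_sum_univ f v]
    refine Finset.sum_congr rfl fun i _ => ?_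
    rw [smul_eq_mul, mul_comm]
    congr 2
    funext j
    simp [Pi.single_apply, eq_comm]
  have hz : ∑ i, l i ^ p * y i = 0 := by
    by_contra h0
    have h2 : (fun i => Φ ((∑ i, l i ^ p * y i)⁻¹ * y i)) ∈ T := ⟨_, fun i => rfl⟩
    have h3 := hT h2
    rw [LinearMap.mem_ker, hfl] at h3
    simp only [← hΦ] at h3
    rw [← map_sum] at h3
    have h4 : ∑ i, l i ^ p * ((∑ i, l i ^ p * y i)⁻¹ * y i) = 1 := by
      rw [← inv_mul_cancel₀ h0, Finset.mul_sum]
      exact Finset.sum_congr rfl fun i _ => by ring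
    rw [h4, h1] at h3
    exact one_ne_zero h3
  apply hf
  rw [hfl]
  simp only [← hΨ]
  rw [← map_sum, hz, map_zero]

end cw

namespace Data

variable {L : Type} [Field L] {p : ℕ} (D : Data L p)

instance [CharP L p] : CharP D.R p :=
  haveI : CharP L⟦X⟧ p := charP_of_injective_ringHom (f := (C : L →+* L⟦X⟧)) C_injective p
  inferInstance

/-- The bounded maps `x ↦ Φ (w * x)`. -/
def tw (w : L) : L →+ L := D.Φ.comp (AddMonoidHom.mulLeft w)

theorem tw_apply (w x : L) : D.tw w x = D.Φ (w * x) := rfl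

theorem tw_lin (w r s : L) : D.tw w (r ^ p * s) = r * D.tw w s := by
  rw [tw_apply, tw_apply, mul_left_comm, D.Φ_lin]

theorem cw_tw_mem (w : L) {f : L⟦X⟧} (hf : f ∈ D.V) : cw p (D.tw w) f ∈ D.V := by
  obtain ⟨n, hn⟩ := hf
  obtain ⟨m, hm⟩ := D.exh w
  refine ⟨max n m, fun i => ?_⟩
  rw [coeff_cw, tw_apply]
  exact D.Φ_mem _ _ ((D.F _).mul_mem (D.mono (le_max_right _ _) hm)
    (D.mono (le_max_left _ _) (hn _)))

variable [hp : Fact p.Prime] [CharP L p]

theorem exists_nonzero : ∃ φ : D.R →+ D.R, IsPInvLinear p φ ∧ φ ≠ 0 := by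
  let φ : D.R →+ D.R :=
    { toFun := fun f => ⟨X * cw p (D.tw 1) f, D.X_mul_mem_R (D.cw_tw_mem 1 f.2.1)⟩
      map_zero' := Subtype.ext (by simp)
      map_add' := fun f g => Subtype.ext (by simp [mul_add]) }
  refine ⟨φ, fun r s => Subtype.ext ?_, fun h => ?_⟩
  · change X * cw p (D.tw 1) ((r : L⟦X⟧) ^ p * s) = (r : L⟦X⟧) * (X * cw p (D.tw 1) s)
    rw [cw_lin p _ (D.tw_lin 1)]; ring
  · have h1 : X * cw p (D.tw 1) 1 = 0 := congrArg (fun ψ : D.R →+ D.R => (ψ 1 : L⟦X⟧)) h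
    rw [cw_one p _ hp.out.pos (by rw [tw_apply, one_mul, D.Φ_one]), mul_one] at h1
    exact X_ne_zero h1

omit hp [CharP L p] in
theorem exists_equivariant : ∃ Ψ : L →+ L, (∀ r s, Ψ (r ^ p * s) = r * Ψ s) ∧ Ψ 1 = 1 ∧
    ∀ y, D.σ y = y → D.σ (Ψ y) = Ψ y := by
  have h : D.α - D.σ D.α ≠ 0 := sub_ne_zero.mpr D.hα.symm
  have h' : D.σ D.α - D.α ≠ 0 := sub_ne_zero.mpr D.hα
  let e : L := D.α / (D.α - D.σ D.α)
  have he : e + D.σ e = 1 := by
    simp only [e, map_div₀, map_sub, D.σσ]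
    field_simp
    ring
  refine ⟨{ toFun := fun x => e * D.Φ x + D.σ (e * D.Φ (D.σ x))
            map_zero' := by simp
            map_add' := fun x y => by simp only [map_add, mul_add]; ring }, ?_, ?_, ?_⟩
  · intro r s
    simp only [AddMonoidHom.coe_mk, ZeroHom.coe_mk, map_mul, map_pow, D.Φ_lin, D.σσ]
    ring
  · simp only [AddMonoidHom.coe_mk, ZeroHom.coe_mk, map_one, D.Φ_one, mul_one, he]
  · intro y hy
    simp only [AddMonoidHom.coe_mk, ZeroHom.coe_mk, hy, map_add, D.σσ]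
    ring

omit [CharP L p] in
theorem exists_local_split {ι : Type} [Fintype ι] (y : ι → D.R) :
    ∃ w : L, cw p (D.tw w) 1 = 1 ∧ ∀ i, cw p (D.tw w) (y i) ∈ D.R := by
  obtain ⟨Ψ, hΨ, hΨ1, hΨσ⟩ := D.exists_equivariant
  obtain ⟨w, hw⟩ := dense p D.Φ Ψ D.Φ_lin D.Φ_one hΨ
    (fun o : Option ι => o.elim 1 fun i => constantCoeff (y i : L⟦X⟧))
  refine ⟨w, cw_one p _ hp.out.pos ((hw none).trans hΨ1), fun i => ⟨D.cw_tw_mem w (y i).2.1, ?_⟩⟩
  have h1 : constantCoeff (cw p (D.tw w) (y i)) = Ψ (constantCoeff (y i : L⟦X⟧)) := by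
    rw [← coeff_zero_eq_constantCoeff_apply, coeff_cw, mul_zero,
      coeff_zero_eq_constantCoeff_apply, tw_apply]
    exact hw (some i)
  rw [h1]
  exact hΨσ _ (y i).2.2

universe v

theorem isFPure : IsFPure.{v} D.R p := by
  intro M _ _
  have key : ∀ m : M, (m ⊗ₜ[D.R] (1 : D.R) : M ⊗[D.R] FrobPush D.R p) = 0 → m = 0 := by
    intro m hm
    let one : FrobPush D.R p := (1 : D.R)
    let P : Submodule D.R (FrobPush D.R p) := Submodule.span D.R {one}
    have hP : P.FG := Submodule.fg_span (Set.finite_singleton _)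
    let t : P ⊗[D.R] M := (⟨one, Submodule.mem_span_singleton_self _⟩ : P) ⊗ₜ[D.R] m
    have ht : LinearMap.rTensor M P.subtype t = 0 := by
      have := congrArg (TensorProduct.comm D.R M (FrobPush D.R p)) hm
      rw [map_zero, TensorProduct.comm_tmul] at this
      exact this
    obtain ⟨Q, hPQ, hQ, hQt⟩ := TensorProduct.eq_zero_of_fg_of_subtype_eq_zero hP ht
    obtain ⟨n, y, hy⟩ := Submodule.fg_iff_exists_fin_generating_family.mp hQ
    obtain ⟨w, hw1, hw⟩ := D.exists_local_split (ι := Fin n) y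
    have hsm : ∀ (r : D.R) (s : FrobPush D.R p),
        cw p (D.tw w) (Subtype.val (r • s : FrobPush D.R p)) =
          (r : L⟦X⟧) * cw p (D.tw w) (Subtype.val s) := fun r s =>
      cw_lin p _ (D.tw_lin w) r (Subtype.val s)
    have hadd : ∀ (s s' : FrobPush D.R p),
        cw p (D.tw w) (Subtype.val (s + s' : FrobPush D.R p)) =
          cw p (D.tw w) (Subtype.val s) + cw p (D.tw w) (Subtype.val s') := fun s s' =>
      map_add (cw p (D.tw w)) (Subtype.val s) (Subtype.val s')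
    have hmem : ∀ s ∈ Q, cw p (D.tw w) (Subtype.val s) ∈ D.R := by
      intro s hs
      rw [← hy] at hs
      induction hs using Submodule.span_induction with
      | mem s hs => obtain ⟨i, rfl⟩ := hs; exact hw i
      | zero => exact (map_zero (cw p (D.tw w))).symm ▸ D.R.zero_mem
      | add s s' _ _ hs hs' => rw [hadd]; exact D.R.add_mem hs hs'
      | smul r s _ hs => rw [hsm]; exact D.R.mul_mem r.2 hs
    let ψ : Q →ₗ[D.R] D.R :=
      { toFun := fun s => ⟨cw p (D.tw w) (Subtype.val s.1), hmem s.1 s.2⟩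
        map_add' := fun s s' => Subtype.ext (hadd s.1 s'.1)
        map_smul' := fun r s => Subtype.ext (hsm r s.1) }
    have h1 := congrArg (fun z => TensorProduct.lid D.R M (LinearMap.rTensor M ψ z)) hQt
    simp only [t, LinearMap.rTensor_tmul, map_zero, TensorProduct.lid_tmul] at h1
    have h2 : ψ (Submodule.inclusion hPQ ⟨one, Submodule.mem_span_singleton_self _⟩) = 1 :=
      Subtype.ext hw1
    rwa [h2, one_smul] at h1
  intro m m' h
  have h' : (m ⊗ₜ[D.R] (1 : D.R) : M ⊗[D.R] FrobPush D.R p) =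
    (m' ⊗ₜ[D.R] (1 : D.R) : M ⊗[D.R] FrobPush D.R p) := h
  apply sub_eq_zero.mp
  apply key
  rw [TensorProduct.sub_tmul, h', sub_self]

theorem not_split : ¬∃ φ : D.R →+ D.R, IsPInvLinear p φ ∧ φ 1 = 1 := by
  rintro ⟨φ, hφ, hφ1⟩
  obtain ⟨q, hq⟩ : ∃ q, p = q + 1 := ⟨p - 1, (Nat.sub_add_cancel hp.out.one_le).symm⟩
  have hXp : ∀ f ∈ D.V, X ^ p * f ∈ D.R := fun f hf => by
    have : (X : L⟦X⟧) ^ p * f = X * (X ^ q * f) := by rw [← mul_assoc, ← pow_succ', ← hq]
    rw [this]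
    exact D.X_mul_mem_R (D.V.mul_mem (D.V.pow_mem D.X_mem_V _) hf)
  let t : D.R := ⟨X, D.mem_R_of_zero D.X_mem_V (by simp)⟩
  -- `φ` is linear over `V` on the conductor
  have hV : ∀ (v : L⟦X⟧) (hv : v ∈ D.V) (h h' : D.R), (h' : L⟦X⟧) = v ^ p * h →
      (φ h' : L⟦X⟧) = v * φ h := by
    intro v hv h h' hh
    have h1 := hφ t h'
    have h2 := hφ ⟨X * v, D.X_mul_mem_R hv⟩ h
    have h3 : t ^ p * h' = (⟨X * v, D.X_mul_mem_R hv⟩ : D.R) ^ p * h := by
      apply Subtype.ext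
      simp only [t, Subring.coe_mul, SubmonoidClass.coe_pow, hh]
      ring
    rw [h3, h2] at h1
    have h4 : X * v * (φ h : L⟦X⟧) = X * (φ h' : L⟦X⟧) := congrArg Subtype.val h1
    rw [mul_assoc] at h4
    exact (mul_left_cancel₀ X_ne_zero h4).symm
  have hc0 : ∀ h : D.R, constantCoeff (h : L⟦X⟧) = 0 → constantCoeff (φ h : L⟦X⟧) = 0 := by
    intro h h0
    have hm : C D.α ^ p * (h : L⟦X⟧) ∈ D.R :=
      D.mem_R_of_zero (D.V.mul_mem (D.V.pow_mem (D.C_mem_V _) _) h.2.1) (by simp [h0])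
    have h1 := hV (C D.α) (D.C_mem_V _) h ⟨_, hm⟩ rfl
    have h2 := (φ ⟨_, hm⟩).2.2
    rw [h1, map_mul, map_mul, (φ h).2.2, constantCoeff_C] at h2
    by_contra hne
    exact D.hα (mul_right_cancel₀ hne h2)
  let G : D.V →+ L⟦X⟧ :=
    { toFun := fun f => (φ ⟨X ^ p * (f : L⟦X⟧), hXp f f.2⟩ : L⟦X⟧)
      map_zero' := by
        have : (⟨X ^ p * ((0 : D.V) : L⟦X⟧), hXp _ (0 : D.V).2⟩ : D.R) = 0 :=
          Subtype.ext (by simp)
        rw [this, map_zero]; rfl
      map_add' := fun f g => by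
        have : (⟨X ^ p * ((f + g : D.V) : L⟦X⟧), hXp _ (f + g).2⟩ : D.R) =
            ⟨X ^ p * (f : L⟦X⟧), hXp f f.2⟩ + ⟨X ^ p * (g : L⟦X⟧), hXp g g.2⟩ := Subtype.ext (by simp [mul_add])
        rw [this, map_add]; rfl }
  have hGV : ∀ f, G f ∈ D.V := fun f => (φ _).2.1
  have hGlin : ∀ v f : D.V, G (v ^ p * f) = (v : L⟦X⟧) * G f := fun v f =>
    hV v v.2 ⟨X ^ p * (f : L⟦X⟧), hXp f f.2⟩ _ (by simp only [Subring.coe_mul, SubmonoidClass.coe_pow]; ring)
  have hGR : ∀ f : D.R, G ⟨f, f.2.1⟩ = X * (φ f : L⟦X⟧) := fun f => hV X D.X_mem_V f _ rfl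
  let CV : L →+* D.V := (C : L →+* L⟦X⟧).codRestrict D.V D.C_mem_V
  let Θ : L →+ L := ((coeff 1).toAddMonoidHom.comp G).comp CV.toAddMonoidHom
  have hΘ : ∀ x, Θ x = coeff 1 (G (CV x)) := fun x => rfl
  have hΘlin : ∀ r s, Θ (r ^ p * s) = r * Θ s := by
    intro r s
    rw [hΘ, hΘ, map_mul, map_pow, hGlin]
    exact coeff_C_mul _ _ _
  have hΘ1 : Θ 1 = 1 := by
    rw [hΘ, map_one]
    have := hGR 1
    rw [hφ1] at this
    have h2 : G 1 = X * 1 := this
    rw [h2]; simp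
  have hΘk : ∀ x, D.σ x = x → D.σ (Θ x) = Θ x := by
    intro x hx
    have := hGR ⟨C x, D.C_mem_R hx⟩
    have h2 : G (CV x) = X * (φ ⟨C x, D.C_mem_R hx⟩ : L⟦X⟧) := this
    rw [hΘ, h2, coeff_succ_X_mul, coeff_zero_eq_constantCoeff_apply]
    exact (φ _).2.2
  have hΘG : ∀ f : D.V, coeff 1 (G f) = Θ (constantCoeff (f : L⟦X⟧)) := by
    intro f
    obtain ⟨g, hg, hfg⟩ := D.exists_eq_X_mul f.2
    have h1 : f = CV (constantCoeff (f : L⟦X⟧)) + ⟨X * g, (D.X_mul_mem_R hg).1⟩ :=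
      Subtype.ext hfg
    have h2 := hGR ⟨X * g, D.X_mul_mem_R hg⟩
    have h3 := hc0 ⟨X * g, D.X_mul_mem_R hg⟩ (by simp)
    conv_lhs => rw [h1]
    rw [map_add, map_add, ← hΘ]
    simp only at h2
    rw [h2, coeff_succ_X_mul, coeff_zero_eq_constantCoeff_apply, h3, add_zero]
  have hΘσ : ∀ x, Θ (D.σ x) = D.σ (Θ x) := by
    intro x
    have hβ : D.σ (D.α ^ p) ≠ D.α ^ p := by
      rw [map_pow]
      exact fun h => D.hα (frobenius_inj L p h)
    obtain ⟨u, v, hu, hv, rfl⟩ := D.decomp _ hβ x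
    rw [map_add, map_mul, hu, hv, map_pow, map_add, map_add, mul_comm v, mul_comm v, hΘlin, hΘlin,
      map_add, map_mul, hΘk u hu, hΘk v hv]
  have hun : ∀ n, Θ (D.a n) ∉ D.F n := by
    intro n hn
    apply D.hc n _ hn
    rw [← hΘσ, ← map_sub, D.ac, ← mul_one (D.c n ^ p), hΘlin, hΘ1, mul_one]
  choose b hb using fun n => hGV (CV (D.a n))
  let s : ℕ → ℕ := fun i => Nat.rec 0 (fun _ m => max m (b m) + 1) i
  have hs : ∀ i, s (i + 1) = max (s i) (b (s i)) + 1 := fun i => rfl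
  have hsi : ∀ i, i ≤ s i := by
    intro i
    induction i with
    | zero => exact Nat.zero_le _
    | succ i ih => rw [hs]; omega
  let f : ℕ → D.V := fun i =>
    ⟨PowerSeries.mk fun l => if p ∣ l then D.a (s (l / p + i)) else 0, 0, fun l => by
      rw [coeff_mk]; split_ifs
      · exact D.a_mem _
      · exact (D.F 0).zero_mem⟩
  have hf0 : ∀ i, constantCoeff (f i : L⟦X⟧) = D.a (s i) := by
    intro i
    rw [← coeff_zero_eq_constantCoeff_apply]
    simp only [f, coeff_mk, dvd_zero, if_true, Nat.zero_div, zero_add]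
  have hfrec : ∀ i, f i = CV (D.a (s i)) + (⟨X, D.X_mem_V⟩ : D.V) ^ p * f (i + 1) := by
    intro i
    apply Subtype.ext
    ext l
    change _ = coeff l (C (D.a (s i)) + X ^ p * (f (i + 1) : L⟦X⟧))
    rw [map_add, coeff_X_pow_mul', coeff_C]
    simp only [f, coeff_mk]
    by_cases hl : l = 0
    · subst hl
      rw [if_pos (dvd_zero _), if_pos rfl, if_neg (by omega), Nat.zero_div, zero_add, add_zero]
    · rw [if_neg hl, zero_add]
      by_cases hpl : p ≤ l
      · obtain ⟨l', rfl⟩ := Nat.exists_eq_add_of_le' hpl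
        rw [if_pos hpl, Nat.add_sub_cancel, Nat.add_div_right _ hp.out.pos]
        simp only [Nat.dvd_add_self_right, add_assoc, add_comm 1 i]
      · rw [if_neg hpl, if_neg fun h => hpl (Nat.le_of_dvd (Nat.pos_of_ne_zero hl) h)]
  obtain ⟨N, hN⟩ := hGV (f 0)
  have hind : ∀ i, D.BddBy (max N (s i)) (G (f i)) := by
    intro i
    induction i with
    | zero => exact hN.mono (le_max_left _ _)
    | succ i ih =>
      intro l
      have h1 := congrArg (fun z => coeff (l + 1) (G z)) (hfrec i)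
      simp only [map_add, hGlin, coeff_succ_X_mul] at h1
      have h2 : coeff l (G (f (i + 1))) =
          coeff (l + 1) (G (f i)) - coeff (l + 1) (G (CV (D.a (s i)))) := by
        rw [h1]; ring
      rw [h2]
      exact (D.F _).sub_mem (D.mono (by rw [hs]; omega) (ih _))
        (D.mono (by rw [hs]; omega) (hb (s i) _))
  have h1 := hind N 1
  rw [max_eq_right (hsi N), hΘG, hf0] at h1
  exact hun _ h1

end Data

end Pool.Agent.Lib.MP_234613_al
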