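import Pool.Agent.Lib.MP_234613_al.Field
import Pool.Agent.Lib.MP_234613_al.Fib78

set_option autoImplicit false

open PowerSeries

namespace Pool.Agent.Lib.MP_234613_al

namespace Data

variable {L : Type} [Field L] {p : ℕ} (D : Data L p)

/-- The ring `k + X V` is not regular. -/
theorem not_regular : ¬IsRegularLocalRing D.R := by
  intro h
  have h1 := h.spanFinrank_maximalIdeal
  rw [D.krullDim] at h1
  have h2 : (IsLocalRing.maximalIdeal D.R).spanFinrank = 1 := by exact_mod_cast h1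
  obtain ⟨⟨y, hy⟩, -⟩ := (Submodule.spanFinrank_eq_one_iff _).mp h2
  let t : D.R := ⟨X * 1, D.X_mul_mem_R D.V.one_mem⟩
  let s : D.R := ⟨X * C D.α, D.X_mul_mem_R (D.C_mem_V _)⟩
  have ht : t ∈ IsLocalRing.maximalIdeal D.R := by rw [mem_max]; simp [t]
  have hs : s ∈ IsLocalRing.maximalIdeal D.R := by rw [mem_max]; simp [s]
  rw [hy] at ht hs
  obtain ⟨a, ha⟩ := Ideal.mem_span_singleton'.mp ht
  obtain ⟨b, hb⟩ := Ideal.mem_span_singleton'.mp hs
  have ha' : (a : L⟦X⟧) * (y : L⟦X⟧) = X * 1 := congrArg Subtype.val ha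
  have hb' : (b : L⟦X⟧) * (y : L⟦X⟧) = X * C D.α := congrArg Subtype.val hb
  have h3 : X * (b : L⟦X⟧) = X * ((a : L⟦X⟧) * C D.α) := by
    linear_combination (a : L⟦X⟧) * hb' - (b : L⟦X⟧) * ha'
  have h4 : constantCoeff (b : L⟦X⟧) = constantCoeff (a : L⟦X⟧) * D.α := by
    rw [mul_left_cancel₀ X_ne_zero h3, map_mul, constantCoeff_C]
  have hy0 : constantCoeff (y : L⟦X⟧) = 0 := by
    rw [← mem_max, hy]
    exact Submodule.mem_span_singleton_self y
  obtain ⟨u, hu⟩ := X_dvd_iff.mpr hy0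
  have h5 : X * ((a : L⟦X⟧) * u) = X * 1 := by rw [← ha', hu]; ring
  have h6 : constantCoeff (a : L⟦X⟧) ≠ 0 := fun h0 => by
    have := congrArg constantCoeff (mul_left_cancel₀ X_ne_zero h5)
    rw [map_mul, h0, zero_mul, map_one] at this
    exact zero_ne_one this
  have h7 := b.2.2
  rw [h4, map_mul, a.2.2] at h7
  exact D.hα (mul_left_cancel₀ h6 h7)

end Data

end Pool.Agent.Lib.MP_234613_al
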