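import Pool.Agent.Lib.MP_234613_al.Defs

open PowerSeries

namespace Pool.Agent.Lib.MP_234613_al

/-- Field-theoretic input data of the construction. -/
structure Data (L : Type) [Field L] (p : ℕ) where
  F : ℕ → Subfield L
  mono : Monotone F
  exh : ∀ x, ∃ n, x ∈ F n
  σ : L →+* L
  σσ : ∀ x, σ (σ x) = x
  α : L
  hα : σ α ≠ α
  Φ : L →+ L
  Φ_lin : ∀ r s, Φ (r ^ p * s) = r * Φ s
  Φ_one : Φ 1 = 1
  Φ_mem : ∀ n x, x ∈ F n → Φ x ∈ F n
  a : ℕ → L
  c : ℕ → L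
  a_mem : ∀ n, a n ∈ F 0
  ac : ∀ n, a n - σ (a n) = c n ^ p
  hc : ∀ n, ∀ x ∈ F n, x - σ x ≠ c n

namespace Data

variable {L : Type} [Field L] {p : ℕ} (D : Data L p)

def BddBy (n : ℕ) (f : L⟦X⟧) : Prop := ∀ i, coeff i f ∈ D.F n

theorem BddBy.mono {D : Data L p} {n m : ℕ} {f : L⟦X⟧} (h : D.BddBy n f) (hnm : n ≤ m) :
    D.BddBy m f := fun i => D.mono hnm (h i)

theorem BddBy.mul {D : Data L p} {n : ℕ} {f g : L⟦X⟧} (hf : D.BddBy n f) (hg : D.BddBy n g) :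
    D.BddBy n (f * g) := fun i => by
  rw [coeff_mul]
  exact (D.F n).sum_mem fun q _ => (D.F n).mul_mem (hf _) (hg _)

theorem bddBy_C {n : ℕ} {x : L} (hx : x ∈ D.F n) : D.BddBy n (C x) := fun i => by
  rw [coeff_C]; split_ifs
  · exact hx
  · exact (D.F n).zero_mem

theorem bddBy_X (n : ℕ) : D.BddBy n X := fun i => by
  rw [coeff_X]; split_ifs
  · exact (D.F n).one_mem
  · exact (D.F n).zero_mem

/-- The discrete valuation ring `V = ⋃ F n ⟦X⟧`. -/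
def V : Subring L⟦X⟧ where
  carrier := {f | ∃ n, D.BddBy n f}
  mul_mem' := by
    rintro f g ⟨n, hn⟩ ⟨m, hm⟩
    exact ⟨max n m, (hn.mono (le_max_left _ _)).mul (hm.mono (le_max_right _ _))⟩
  one_mem' := ⟨0, by simpa using D.bddBy_C (D.F 0).one_mem⟩
  add_mem' := by
    rintro f g ⟨n, hn⟩ ⟨m, hm⟩
    exact ⟨max n m, fun i => by
      rw [map_add]
      exact (D.F _).add_mem (hn.mono (le_max_left _ _) i) (hm.mono (le_max_right _ _) i)⟩
  zero_mem' := ⟨0, fun i => by simp⟩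
  neg_mem' := by
    rintro f ⟨n, hn⟩
    exact ⟨n, fun i => by rw [map_neg]; exact (D.F _).neg_mem (hn i)⟩

theorem mem_V {f : L⟦X⟧} : f ∈ D.V ↔ ∃ n, D.BddBy n f := Iff.rfl

theorem C_mem_V (x : L) : (C x : L⟦X⟧) ∈ D.V := by
  obtain ⟨n, hn⟩ := D.exh x
  exact ⟨n, D.bddBy_C hn⟩

theorem X_mem_V : (X : L⟦X⟧) ∈ D.V := ⟨0, D.bddBy_X 0⟩

theorem shift_mem_V {f : L⟦X⟧} (hf : f ∈ D.V) (k : ℕ) :
    (PowerSeries.mk fun i => coeff (i + k) f : L⟦X⟧) ∈ D.V := by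
  obtain ⟨n, hn⟩ := hf
  exact ⟨n, fun i => by rw [coeff_mk]; exact hn _⟩

theorem exists_inv_V {f : L⟦X⟧} (hf : f ∈ D.V) (h0 : constantCoeff f ≠ 0) :
    ∃ g ∈ D.V, f * g = 1 := by
  obtain ⟨n, hn⟩ := hf
  let f' : (D.F n)⟦X⟧ := PowerSeries.mk fun i => ⟨coeff i f, hn i⟩
  have hmap : PowerSeries.map (D.F n).subtype f' = f := by
    ext i; simp [f']
  have hu : IsUnit f' := by
    rw [PowerSeries.isUnit_iff_constantCoeff, isUnit_iff_ne_zero]
    intro h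
    apply h0
    rw [← coeff_zero_eq_constantCoeff_apply, coeff_mk] at h
    rw [← coeff_zero_eq_constantCoeff_apply]
    exact congrArg Subtype.val h
  obtain ⟨g', hg'⟩ := hu.exists_right_inv
  refine ⟨PowerSeries.map (D.F n).subtype g', ⟨n, fun i => ?_⟩, ?_⟩
  · rw [coeff_map]; exact (coeff i g').2
  · rw [← hmap, ← map_mul, hg', map_one]

/-- The ring `R = k + X V`, `k` the fixed field of `σ`. -/
def R : Subring L⟦X⟧ where
  carrier := {f | f ∈ D.V ∧ D.σ (constantCoeff f) = constantCoeff f}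
  mul_mem' := by
    rintro f g ⟨hf, hf'⟩ ⟨hg, hg'⟩
    exact ⟨D.V.mul_mem hf hg, by rw [map_mul, map_mul, hf', hg']⟩
  one_mem' := ⟨D.V.one_mem, by simp⟩
  add_mem' := by
    rintro f g ⟨hf, hf'⟩ ⟨hg, hg'⟩
    exact ⟨D.V.add_mem hf hg, by rw [map_add, map_add, hf', hg']⟩
  zero_mem' := ⟨D.V.zero_mem, by simp⟩
  neg_mem' := by
    rintro f ⟨hf, hf'⟩
    exact ⟨D.V.neg_mem hf, by rw [map_neg, map_neg, hf']⟩

theorem mem_R {f : L⟦X⟧} : f ∈ D.R ↔ f ∈ D.V ∧ D.σ (constantCoeff f) = constantCoeff f := Iff.rfl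

theorem X_mul_mem_R {f : L⟦X⟧} (hf : f ∈ D.V) : X * f ∈ D.R :=
  ⟨D.V.mul_mem D.X_mem_V hf, by simp⟩

theorem mem_R_of_zero {f : L⟦X⟧} (hf : f ∈ D.V) (h0 : constantCoeff f = 0) : f ∈ D.R :=
  ⟨hf, by simp [h0]⟩

theorem C_mem_R {x : L} (hx : D.σ x = x) : (C x : L⟦X⟧) ∈ D.R := ⟨D.C_mem_V x, by simpa using hx⟩

theorem isUnit_of_ne {f : D.R} (h0 : constantCoeff (f : L⟦X⟧) ≠ 0) : IsUnit f := by
  obtain ⟨g, hg, hfg⟩ := D.exists_inv_V f.2.1 h0
  have h1 : constantCoeff (f : L⟦X⟧) * constantCoeff g = 1 := by rw [← map_mul, hfg, map_one]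
  have h2 : D.σ (constantCoeff g) = constantCoeff g := by
    have h3 := congrArg D.σ h1
    rw [map_mul, map_one, f.2.2] at h3
    exact mul_left_cancel₀ h0 (h3.trans h1.symm)
  exact IsUnit.of_mul_eq_one (⟨g, hg, h2⟩ : D.R) (Subtype.ext hfg)

instance : IsLocalRing D.R :=
  IsLocalRing.of_isUnit_or_isUnit_one_sub_self fun a => by
    by_cases h : constantCoeff (a : L⟦X⟧) = 0
    · right
      apply D.isUnit_of_ne
      simp [h]
    · exact Or.inl (D.isUnit_of_ne h)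

theorem mem_max {f : D.R} :
    f ∈ IsLocalRing.maximalIdeal D.R ↔ constantCoeff (f : L⟦X⟧) = 0 := by
  rw [IsLocalRing.mem_maximalIdeal, mem_nonunits_iff]
  constructor
  · intro h
    by_contra h0
    exact h (D.isUnit_of_ne h0)
  · intro h hu
    obtain ⟨g, hg⟩ := hu.exists_right_inv
    have := congrArg (fun x : D.R => constantCoeff (x : L⟦X⟧)) hg
    simp [h] at this

theorem exists_eq_X_mul {f : L⟦X⟧} (hf : f ∈ D.V) :
    ∃ g ∈ D.V, f = C (constantCoeff f) + X * g :=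
  ⟨_, D.shift_mem_V hf 1, by
    rw [add_comm]; exact eq_X_mul_shift_add_const f⟩

theorem max_le_radical (x : D.R) (hx : x ≠ 0) :
    IsLocalRing.maximalIdeal D.R ≤ Ideal.radical (Ideal.span {x}) := by
  intro g hg
  rw [mem_max] at hg
  obtain ⟨g', hg', hgg⟩ := D.exists_eq_X_mul g.2.1
  rw [hg, map_zero, zero_add] at hgg
  have hx' : (x : L⟦X⟧) ≠ 0 := fun h => hx (Subtype.ext h)
  set n := (x : L⟦X⟧).order.toNat
  have h1 : (X : L⟦X⟧) ^ n * divXPowOrder (x : L⟦X⟧) = (x : L⟦X⟧) := X_pow_order_mul_divXPowOrder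
  have h2 : divXPowOrder (x : L⟦X⟧) ∈ D.V := D.shift_mem_V x.2.1 n
  have h3 : constantCoeff (divXPowOrder (x : L⟦X⟧)) ≠ 0 := by
    rwa [Ne, constantCoeff_divXPowOrder_eq_zero_iff]
  obtain ⟨u, hu, hu'⟩ := D.exists_inv_V h2 h3
  refine ⟨n + 1, Ideal.mem_span_singleton.mpr ⟨⟨X * (g' ^ (n + 1) * u),
    D.X_mul_mem_R (D.V.mul_mem (D.V.pow_mem hg' _) hu)⟩, Subtype.ext ?_⟩⟩
  simp only [SubmonoidClass.coe_pow, Subring.coe_mul]
  rw [hgg, ← h1]
  linear_combination (-(X * g') ^ (n + 1)) * hu'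

theorem decomp (β : L) (hβ : D.σ β ≠ β) (x : L) :
    ∃ u v, D.σ u = u ∧ D.σ v = v ∧ x = u + v * β := by
  have h : β - D.σ β ≠ 0 := sub_ne_zero.mpr hβ.symm
  have h' : D.σ β - β ≠ 0 := sub_ne_zero.mpr hβ
  refine ⟨x - (x - D.σ x) / (β - D.σ β) * β, (x - D.σ x) / (β - D.σ β), ?_, ?_, by ring⟩
  · simp only [map_sub, map_mul, map_div₀, D.σσ]
    field_simp
    ring
  · simp only [map_sub, map_div₀, D.σσ]
    field_simp
    ring

theorem max_fg : (IsLocalRing.maximalIdeal D.R).FG := by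
  let t : D.R := ⟨X * 1, D.X_mul_mem_R D.V.one_mem⟩
  let s : D.R := ⟨X * C D.α, D.X_mul_mem_R (D.C_mem_V _)⟩
  have : IsLocalRing.maximalIdeal D.R = Ideal.span {t, s} := by
    apply le_antisymm
    · intro g hg
      rw [mem_max] at hg
      obtain ⟨g', hg', hgg⟩ := D.exists_eq_X_mul g.2.1
      rw [hg, map_zero, zero_add] at hgg
      obtain ⟨g'', hg'', hgg'⟩ := D.exists_eq_X_mul hg'
      obtain ⟨u, v, hu, hv, huv⟩ := D.decomp D.α D.hα (constantCoeff g')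
      rw [Ideal.mem_span_pair]
      refine ⟨⟨C u + X * g'', D.R.add_mem (D.C_mem_R hu) (D.X_mul_mem_R hg'')⟩,
        ⟨C v, D.C_mem_R hv⟩, Subtype.ext ?_⟩
      simp only [t, s, Subring.coe_add, Subring.coe_mul]
      rw [hgg, hgg', huv]
      simp only [map_add, map_mul]
      ring
    · rw [Ideal.span_le]
      rintro x (rfl | rfl) <;> (rw [SetLike.mem_coe, mem_max]; simp [t, s])
  rw [this]
  exact Submodule.fg_span (Set.toFinite _)

instance : IsNoetherianRing D.R := by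
  apply IsNoetherianRing.of_prime
  intro I hI
  by_cases h : I = ⊥
  · rw [h]; exact Submodule.fg_bot
  · obtain ⟨x, hx, hx0⟩ := Submodule.exists_mem_ne_zero_of_ne_bot h
    have h1 : IsLocalRing.maximalIdeal D.R ≤ I :=
      (D.max_le_radical x hx0).trans
        (hI.radical_le_iff.mpr ((Ideal.span_singleton_le_iff_mem I).mpr hx))
    have h2 : I = IsLocalRing.maximalIdeal D.R :=
      le_antisymm (IsLocalRing.le_maximalIdeal hI.ne_top) h1
    rw [h2]; exact D.max_fg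

theorem krullDim : ringKrullDim D.R = 1 := by
  rw [ringKrullDim_eq_one_iff_of_isLocalRing_isDomain]
  refine ⟨fun h => ?_, D.max_le_radical⟩
  have h1 := IsLocalRing.isField_iff_maximalIdeal_eq.mp h
  have h2 : (⟨X * 1, D.X_mul_mem_R D.V.one_mem⟩ : D.R) ∈ IsLocalRing.maximalIdeal D.R := by
    rw [mem_max]; simp
  rw [h1, Ideal.mem_bot] at h2
  have := congrArg Subtype.val h2
  simp at this

end Data

end Pool.Agent.Lib.MP_234613_al
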